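import Mathlib
import Pool.Agent.H21.IdxDefs

namespace Pool.Agent.Results.MP_c0d803_al.Strict

open Pool.Agent.H21.Idx Filter Equiv Relation

lemma cf {T H : Type} [Group H] (g : ContextFreeGrammar T) (f : ℕ → H →* Perm ℤ)
    (π : H →* Pres g.language) (hπ : Function.Surjective π)
    (hf : ∀ x, π x = 1 → ∀ᶠ N in atTop, f N x = 1) (S : Set H) (hS : S.Finite) :
    ∀ᶠ N in atTop, ∃ μ : Pres g.language →* Perm ℤ, ∀ x ∈ S, μ (π x) = f N x := by
  classical
  let t : Symbol T g.NT → List T := fun s => Classical.epsilon fun w => g.Derives [s] (w.map .terminal)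
  let P := fun s => ∃ w : List T, g.Derives [s] (w.map .terminal)
  choose ψ hψ using fun y => hπ (.of y)
  let v := fun w : List T => (w.map ψ).prod
  have hv : ∀ w, π (v w) = PresentedGroup.mk _ (w.map .of).prod := fun w => by
    simp only [v, map_list_prod, List.map_map]
    exact congrArg _ (List.map_congr_left fun y _ => hψ y)
  have t0 : ∀ y, t (.terminal y) = [y] := fun y => by
    have : g.Derives [.terminal y] ((t (.terminal y)).map .terminal) :=
      Classical.epsilon_spec (p := fun w : List T => g.Derives [_] (w.map .terminal)) ⟨[y], .refl _⟩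
    rcases this.eq_or_head with h | ⟨_, h, -⟩
    · exact List.map_injective_iff.2 (fun _ _ => Symbol.terminal.inj) h.symm
    · simpa using h.exists_nonterminal_input_mem
  have t1 : ∀ w : List T, (w.map .terminal).flatMap t = w := fun w => by
    induction w <;> simp [*]
  have t2 : ∀ s, (∀ a ∈ s, P a) → g.Derives s ((s.flatMap t).map .terminal) := fun s h => by
    induction s with
    | nil => exact .refl _
    | cons a s ih =>
      simpa using ((Classical.epsilon_spec (h a (by simp))).append_right s).trans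
        ((ih fun b m => h b (by simp [m])).append_left _)
  have t3 : ∀ s, g.Generates s → (∀ a ∈ s, P a) → π (v (s.flatMap t)) = 1 := fun s h k =>
    (hv _).trans (PresentedGroup.one_of_mem ⟨_, h.trans (t2 s k), rfl⟩)
  have e : ∀ x, ∀ᶠ N in atTop, π x = 1 → f N x = 1 := fun x =>
    eventually_imp_distrib_left.2 (hf x)
  let l := (FreeGroup.lift ψ)
  have hl : π.comp l = PresentedGroup.mk _ := FreeGroup.ext_hom _ _ fun y => by
    simp only [l, MonoidHom.comp_apply, FreeGroup.lift_apply_of]
    exact hψ y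
  choose σ hσ using fun x => PresentedGroup.mk_surjective _ (π x)
  filter_upwards [(eventually_all_finset g.rules).2 fun r _ =>
    e ((v (t (.nonterminal r.input)))⁻¹ * v (r.output.flatMap t)), e (v (t (.nonterminal g.initial))),
    (eventually_all_finite hS).2 fun x _ => e (x⁻¹ * l (σ x))] with N h1 h2 h3
  have k : ∀ (w : List T) s, g.Derives s (w.map .terminal) → g.Generates s →
      (∀ a ∈ s, P a) ∧ f N (v (s.flatMap t)) = f N (v w) := fun w s h => by
    induction h using ReflTransGen.head_induction_on with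
    | refl => exact fun _ => ⟨by simpa using fun y _ => ⟨[y], .refl _⟩, by rw [t1]⟩
    | head h _ ih =>
      intro k
      obtain ⟨h4, h5⟩ := ih (k.tail h)
      have h6 := t3 _ (k.tail h) h4
      obtain ⟨r, m, h⟩ := h
      obtain ⟨p, q, rfl, rfl⟩ := h.exists_parts
      have h7 : ∀ a ∈ p ++ [.nonterminal r.input] ++ q, P a := by
        simp only [List.forall_mem_append, List.forall_mem_singleton] at h4 ⊢
        exact ⟨⟨h4.1.1, _, ReflTransGen.head ⟨r, m, .input_output⟩ (t2 _ h4.1.2)⟩, h4.2⟩
      have h8 := (t3 _ k h7).trans h6.symm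
      simp only [v, List.flatMap_append, List.map_append, List.prod_append, map_mul, mul_left_inj,
        mul_right_inj, List.flatMap_singleton] at h8 h5 ⊢
      have := h1 r m (by simp [v, h8])
      rw [map_mul, map_inv, inv_mul_eq_one] at this
      exact ⟨h7, this ▸ h5⟩
  refine ⟨PresentedGroup.toGroup (f := fun y => f N (ψ y)) ?_, fun x m => ?_⟩
  · rintro _ ⟨w, m, rfl⟩
    obtain ⟨h4, h5⟩ := k w _ m (.refl _)
    rw [List.flatMap_singleton, h2 (by simpa using t3 _ (.refl _) h4)] at h5
    simpa [v, map_list_prod, Function.comp_def] using h5.symm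
  have := h3 x m (by rw [map_mul, ← MonoidHom.comp_apply π l, hl, hσ]; simp)
  rw [map_mul, map_inv, inv_mul_eq_one] at this
  refine (congrArg _ (hσ x).symm).trans (Eq.trans ?_ this.symm)
  exact DFunLike.congr_fun (FreeGroup.ext_hom (FreeGroup.lift fun y => f N (ψ y)) ((f N).comp l)
    fun y => by simp [l]) (σ x)

open Symbol in
def g : Grammar (Fin 3) 4 2 := ⟨0, [.plain 0 [terminal 0, terminal 0], .plain 0 [terminal 1, terminal 2],
  .push 0 1 0, .push 1 1 1, .plain 1 [terminal 0, nonterminal 2, terminal 0, nonterminal 3,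
    terminal 0, nonterminal 2, terminal 0, nonterminal 3],
  .pop 2 1 [terminal 1, nonterminal 2], .pop 3 1 [terminal 2, nonterminal 3], .pop 2 0 [], .pop 3 0 []]⟩

def L : Language (Fin 3) := {w | ReflTransGen (Step g) [.inr (g.start, [])] (w.map .inl)}

def blk (n : ℕ) : List (Fin 3) := 0 :: List.replicate n 1 ++ 0 :: List.replicate n 2

abbrev Y := Fin 3 ⊕ Fin 4 × List (Fin 2)

lemma un (A : Fin 4) (a : Fin 3) (h : .pop A 1 [.terminal a, .nonterminal A] ∈ g.rules)
    (k : .pop A 0 [] ∈ g.rules) (q : List Y) : ∀ n (p : List Y), ReflTransGen (Step g)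
      (p ++ [.inr (A, .replicate n 1 ++ [0])] ++ q) (p ++ .replicate n (.inl a) ++ q)
  | 0, p => .single (.pop A 0 [] [] p q k)
  | n + 1, p => .head (.pop A 1 _ _ p q h) (by
      have := un A a h k q n (p ++ [.inl a])
      simpa [att, List.replicate_succ] using this)

lemma mem (n : ℕ) : blk n ++ blk n ∈ L := by
  have h : ∀ n, ReflTransGen (Step g) [.inr (g.start, [])] [(.inr (1, .replicate n 1 ++ [0]) : Y)] := fun n => by
    induction n with
    | zero => exact .single (.push 0 1 0 [] [] [] (by simp [g]))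
    | succ n ih => exact ih.tail (.push 1 1 1 _ [] [] (by simp [g]))
  have a := un 2 1 (by simp [g]) (by simp [g])
  have b := un 3 2 (by simp [g]) (by simp [g])
  let σ : List (Fin 2) := .replicate n 1 ++ [0]
  let B : List Y := [.inl 0, .inr (2, σ), .inl 0, .inr (3, σ)]
  have c : ∀ p q, ReflTransGen (Step g) (p ++ B ++ q) (p ++ (blk n).map .inl ++ q) := fun p q => by
    refine .trans (b := p ++ [.inl 0] ++ .replicate n (.inl 1) ++ ([.inl 0, .inr (3, σ)] ++ q)) ?_ ?_
    · have := a ([.inl 0, .inr (3, σ)] ++ q) n (p ++ [.inl 0])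
      simpa [B] using this
    · have := b q n (p ++ [.inl 0] ++ .replicate n (.inl 1) ++ [.inl 0])
      simpa [blk] using this
  refine ((h n).tail (.plain 1 _ _ [] [] (.tail _ (.tail _ (.tail _ (.tail _ (.head _))))))).trans
    ((c [] B).trans ?_)
  have := c ((blk n).map .inl) []
  simpa using this

def f (N : ℕ) : FreeGroup (Fin 3) →* Perm ℤ := FreeGroup.lift ![swap 0 N, .addRight 1, .addRight (-1)]

def k : List (Fin 2) → ℕ
  | 1 :: σ => k σ + 1
  | _ => 0

def val (N : ℕ) : Y → Perm ℤ
  | .inl a => f N (.of a)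
  | .inr (2, σ) => .addRight (k σ : ℤ)
  | .inr (3, σ) => .addRight (-k σ : ℤ)
  | _ => 1

lemma cj (a b x j : ℤ) : swap a b (x + -j) + j = swap (a + j) (b + j) x := by
  simp only [swap_apply_def]
  split_ifs <;> omega

lemma snd {s s' : List Y} (h : Step g s s') : ∀ᶠ N in atTop, (s.map (val N)).prod = (s'.map (val N)).prod := by
  cases h with
  | plain A α σ p q h =>
    filter_upwards [eventually_gt_atTop (k σ)] with N hN
    simp only [List.map_append, List.prod_append, mul_left_inj, mul_right_inj]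
    simp [g] at h
    rcases h with ⟨rfl, rfl⟩ | ⟨rfl, rfl⟩ | ⟨rfl, rfl⟩ <;> ext x <;> simp [val, att, f]
    simp only [cj, swap_apply_def]
    split_ifs <;> omega
  | push A B i σ p q h =>
    simp [g] at h
    rcases h with ⟨rfl, rfl, rfl⟩ | ⟨rfl, rfl, rfl⟩ <;> simp [val]
  | pop A i α σ p q h =>
    refine .of_forall fun N => ?_
    simp only [List.map_append, List.prod_append, mul_left_inj, mul_right_inj]
    simp [g] at h
    rcases h with ⟨rfl, rfl, rfl⟩ | ⟨rfl, rfl, rfl⟩ | ⟨rfl, rfl, rfl⟩ | ⟨rfl, rfl, rfl⟩ <;> ext x <;>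
      simp [val, att, f, k]
    all_goals ring

lemma ker (x) (h : PresentedGroup.mk {x | ∃ w ∈ L, x = (w.map FreeGroup.of).prod} x = 1) :
    ∀ᶠ N in atTop, f N x = 1 := by
  let Φ := (Germ.coeMulHom atTop).comp (MonoidHom.pi f)
  refine Germ.coe_eq.1 (Subgroup.normalClosure_le_normal (N := Φ.ker) ?_ (PresentedGroup.mk_eq_one_iff.1 h))
  rintro _ ⟨w, m, rfl⟩
  have : ∀ s : List Y, ReflTransGen (Step g) [.inr (g.start, [])] s → ∀ᶠ N in atTop, (s.map (val N)).prod = 1 :=
    fun s h => by
      induction h with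
      | refl => exact .of_forall fun _ => rfl
      | tail _ h ih => filter_upwards [ih, snd h] with N h1 h2 using h2 ▸ h1
  refine Germ.coe_eq.2 ((this _ m).mono fun N h => ?_)
  simpa [map_list_prod, Function.comp_def, val] using h

theorem result : ∃ (n : ℕ) (L : Language (Fin n)), IsIndexed L ∧
    ∀ (m : ℕ) (L' : Language (Fin m)), L'.IsContextFree → IsEmpty (Pres L ≃* Pres L') := by
  refine ⟨3, L, ⟨4, 2, g, fun _ => Iff.rfl⟩, ?_⟩
  rintro m _ ⟨g', rfl⟩
  refine ⟨fun e => ?_⟩
  obtain ⟨N, ⟨μ, h⟩, hN⟩ := ((cf g' f (e.toMonoidHom.comp (PresentedGroup.mk _))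
    (e.surjective.comp (PresentedGroup.mk_surjective _)) (fun x h => ker x (e.map_eq_one_iff.1 h)) _
    (Set.finite_range FreeGroup.of)).and (eventually_gt_atTop 0)).exists
  have := DFunLike.congr_fun (FreeGroup.ext_hom (μ.comp (e.toMonoidHom.comp (PresentedGroup.mk _))) (f N)
    fun y => h _ ⟨y, rfl⟩) ((blk N ++ blk N).map .of).prod
  rw [MonoidHom.comp_apply, MonoidHom.comp_apply, PresentedGroup.one_of_mem (by exact ⟨_, mem N, rfl⟩)] at this
  have := DFunLike.congr_fun this 0
  simp [blk, f, ← sub_eq_add_neg] at this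
  simp only [sub_eq_add_neg, cj, swap_apply_def] at this
  split_ifs at this <;> omega

end Pool.Agent.Results.MP_c0d803_al.Strict
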